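import Mathlib

/-!
# MP_cf0832_co: bounded theta graph counts do not give the path-moment bounds

We give, for `ℓ = 3`, a sequence of graphs which satisfies (A), (B) and (C), and whose normalised
counts of all theta graphs `H_{k,3}` are bounded, but which violates (D).

Let `m` be the integer part of `n ^ (1/4)` and `p = m / n`. The graph `G_n` has the edges from the
vertex `0` to the vertices `2, …, 2 m + 1`, and from the vertex `1` to the vertices `2, …, m + 1`;
all other vertices are isolated. The vertices `0`, `1` cover all edges. So an embedding of a graph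
with `t` vertices and without isolated vertices maps some vertex to `0` or `1` and the others to
the first `2 m + 2` vertices, and there are `O (m ^ (t - 1))` of them; a graph with three
disjoint edges, such as `H_{k,3}` with `k ≥ 2`, has no embedding. On the other hand there are `m`
paths of length three from each of the `m` leaves `m + 2, …, 2 m + 1` to the vertex `1`, so that
the sum in (D) is at least `m ^ (k + 1)`, which is more than the bound `O (n ^ (2 - k) m ^ (3 k))`
for `k = 4` and `n = m ^ 4`.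
-/

set_option autoImplicit false

namespace Pool.Agent.Results.MP_cf0832_co.PathMomentsNotFromThetas

open Finset Filter MeasureTheory
open scoped unitInterval

/-! ## Definitions -/

/-- the number of injective homomorphisms from `F` to `G` -/
noncomputable def emb {α β : Type} (F : SimpleGraph α) (G : SimpleGraph β) : ℕ :=
  Nat.card {f : α → β // Function.Injective f ∧ ∀ a b, F.Adj a b → G.Adj (f a) (f b)}

/-- the normalised number of embeddings `s_p(F, G)` of the graph `F` in the graph `G` with `n`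
vertices -/
noncomputable def sp {α : Type} [Fintype α] (p : ℝ) (F : SimpleGraph α) {n : ℕ}
    (G : SimpleGraph (Fin n)) : ℝ :=
  emb F G / ((n.descFactorial (Fintype.card α) : ℕ) * p ^ F.edgeSet.ncard)

/-- the number of paths of length `t` from `u` to `v` -/
noncomputable def paths {n : ℕ} (G : SimpleGraph (Fin n)) (t : ℕ) (u v : Fin n) : ℕ :=
  Nat.card {x : Fin (t + 1) → Fin n // Function.Injective x ∧ x 0 = u ∧ x (Fin.last t) = v ∧
    ∀ i : Fin t, G.Adj (x i.castSucc) (x i.succ)}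

/-- the relation defining the theta graph: `inl 0` and `inl 1` are the two ends, and the inner
vertices of the `i`-th path are `inr (i, 0), …, inr (i, ℓ - 2)` in this order -/
def thetaRel (k ℓ : ℕ) : Fin 2 ⊕ (Fin k × Fin (ℓ - 1)) → Fin 2 ⊕ (Fin k × Fin (ℓ - 1)) → Bool
  | Sum.inl e, Sum.inr q => (e == 0 && q.2.val == 0) || (e == 1 && q.2.val == ℓ - 2)
  | Sum.inr q, Sum.inr q' => q.1 == q'.1 && q.2.val + 1 == q'.2.val
  | _, _ => false

/-- the theta graph `H_{k,ℓ}` for `ℓ ≥ 3` -/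
def theta (k ℓ : ℕ) : SimpleGraph (Fin 2 ⊕ (Fin k × Fin (ℓ - 1))) :=
  SimpleGraph.fromRel fun a b => thetaRel k ℓ a b = true

/-- `f = O (g)` for nonnegative functions -/
def BigO (f g : ℕ → ℝ) : Prop := ∃ B : ℝ, ∀ᶠ n in atTop, f n ≤ B * g n

/-- condition (A): `sup_n s_p(T, G_n) < ∞` for every tree `T` -/
def CondA (p : ℕ → ℝ) (G : (n : ℕ) → SimpleGraph (Fin n)) : Prop :=
  ∀ (t : ℕ) (T : SimpleGraph (Fin t)), T.IsTree → ∃ B : ℝ, ∀ n, sp (p n) T (G n) ≤ B

/-- condition (B) -/
def CondB (ℓ : ℕ) (p : ℕ → ℝ) (G : (n : ℕ) → SimpleGraph (Fin n)) : Prop :=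
  BigO (fun n => ∑ u, ∑ v ∈ univ.erase u, (paths (G n) (ℓ - 1) u v : ℝ) ^ 2)
    (fun n => (n : ℝ) ^ (2 * ℓ - 2) * p n ^ (2 * ℓ - 2))

/-- condition (D) -/
def CondD (ℓ : ℕ) (p : ℕ → ℝ) (G : (n : ℕ) → SimpleGraph (Fin n)) : Prop :=
  ∀ k : ℕ, 1 ≤ k → BigO (fun n => ∑ u, ∑ v ∈ univ.erase u, (paths (G n) ℓ u v : ℝ) ^ k)
    (fun n => (n : ℝ) ^ (2 + k * (ℓ - 1)) * p n ^ (k * ℓ))

/-- the cut norm of a function on the unit square -/
noncomputable def cutNorm (W : I → I → ℝ) : ℝ :=
  sSup {r | ∃ S T : Set I, MeasurableSet S ∧ MeasurableSet T ∧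
    r = |∫ z in S ×ˢ T, W z.1 z.2|}

open scoped Classical in
/-- the step function `κ_G`; the vertices of `G` are numbered by `1, …, n` -/
noncomputable def stepFun (p : ℝ) {n : ℕ} (G : SimpleGraph (Fin n)) (x y : I) : ℝ :=
  if ∃ i j : Fin n, ⌈(n : ℝ) * x⌉₊ = i.val + 1 ∧ ⌈(n : ℝ) * y⌉₊ = j.val + 1 ∧ G.Adj i j
    then 1 / p else 0

/-- the cut distance of `G` and the kernel `κ` -/
noncomputable def dCut (p : ℝ) {n : ℕ} (G : SimpleGraph (Fin n)) (κ : I → I → ℝ) : ℝ :=
  sInf {r | ∃ φ : I ≃ᵐ I, MeasurePreserving φ volume volume ∧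
    r = cutNorm fun x y => stepFun p G x y - κ (φ x) (φ y)}

/-- condition (C): convergence in cut distance to some kernel with values in `[0, C]` -/
def CondC (C : ℝ) (p : ℕ → ℝ) (G : (n : ℕ) → SimpleGraph (Fin n)) : Prop :=
  ∃ κ : I → I → ℝ, Measurable (Function.uncurry κ) ∧ (∀ x y, κ x y = κ y x) ∧
    (∀ x y, 0 ≤ κ x y ∧ κ x y ≤ C) ∧
    Tendsto (fun n => dCut (p n) (G n) κ) atTop (nhds 0)

/-! ## The graphs -/

/-- the integer part of `n ^ (1/4)` -/
def m (n : ℕ) : ℕ := Nat.sqrt (Nat.sqrt n)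

/-- the relation on the numbers of the vertices -/
def R (m i j : ℕ) : Prop := (i = 0 ∧ 2 ≤ j ∧ j < 2 + 2 * m) ∨ (i = 1 ∧ 2 ≤ j ∧ j < 2 + m)

/-- the graph `G_n` -/
def G (n : ℕ) : SimpleGraph (Fin n) where
  Adj i j := R (m n) i j ∨ R (m n) j i
  symm := ⟨fun _ _ h => h.symm⟩
  loopless := ⟨fun i h => by
    rcases h with h | h <;> rcases h with h | h <;> omega⟩

/-- the function `p` -/
noncomputable def pp (n : ℕ) : ℝ := if n = 0 then 1 else (m n : ℝ) / n

theorem m_pos {n : ℕ} (hn : 1 ≤ n) : 1 ≤ m n :=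
  Nat.sqrt_pos.2 (Nat.sqrt_pos.2 hn)

theorem m_pow (n : ℕ) : m n ^ 4 ≤ n := by
  have h1 := Nat.sqrt_le' (Nat.sqrt n)
  have h2 := Nat.sqrt_le' n
  calc m n ^ 4 = (Nat.sqrt (Nat.sqrt n) ^ 2) ^ 2 := by unfold m; ring
    _ ≤ (Nat.sqrt n) ^ 2 := Nat.pow_le_pow_left h1 2
    _ ≤ n := h2

theorem m_le (n : ℕ) : m n ≤ n := (Nat.sqrt_le_self _).trans (Nat.sqrt_le_self _)

theorem m_of_pow (K : ℕ) : m (K ^ 4) = K := by
  unfold m
  have h1 : K ^ 4 = K ^ 2 * K ^ 2 := by ring
  rw [h1, Nat.sqrt_eq, sq, Nat.sqrt_eq]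

theorem pp_eq {n : ℕ} (hn : 1 ≤ n) : pp n = (m n : ℝ) / n := if_neg (by omega)

theorem pp_pos (n : ℕ) : 0 < pp n := by
  unfold pp
  split_ifs with h
  · exact one_pos
  · have h1 : 1 ≤ m n := m_pos (by omega)
    have h2 : (0 : ℝ) < m n := by exact_mod_cast h1
    have h3 : (0 : ℝ) < n := by exact_mod_cast Nat.pos_of_ne_zero h
    positivity

theorem pp_le_one (n : ℕ) : pp n ≤ 1 := by
  unfold pp
  split_ifs with h
  · exact le_rfl
  · have h3 : (0 : ℝ) < n := by exact_mod_cast Nat.pos_of_ne_zero h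
    rw [div_le_one h3]
    exact_mod_cast m_le n

theorem adj_cover {n : ℕ} {i j : Fin n} (h : (G n).Adj i j) : i.val < 2 ∨ j.val < 2 := by
  rcases h with h | h <;> rcases h with h | h <;> omega

theorem adj_lt {n : ℕ} {i j : Fin n} (h : (G n).Adj i j) : i.val < 2 + 2 * m n := by
  rcases h with h | h <;> rcases h with h | h <;> omega

/-- counting embeddings -/
theorem emb_le {α : Type} [Fintype α] [Nonempty α] (F : SimpleGraph α)
    (hF : ∀ a, ∃ b, F.Adj a b) (n : ℕ) :
    emb F (G n) ≤ 2 * Fintype.card α * (2 + 2 * m n) ^ (Fintype.card α - 1) := by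
  classical
  unfold emb
  rw [Nat.card_eq_fintype_card, Fintype.card_subtype]
  have hsub : (univ.filter fun f : α → Fin n =>
      Function.Injective f ∧ ∀ a b, F.Adj a b → (G n).Adj (f a) (f b)) ⊆
      (univ : Finset (α × Fin 2)).biUnion fun q => Fintype.piFinset fun b =>
        if b = q.1 then univ.filter (fun v : Fin n => v.val = q.2.val)
          else univ.filter (fun v : Fin n => v.val < 2 + 2 * m n) := by
    intro f hf
    rw [mem_filter] at hf
    obtain ⟨_, _, hf⟩ := hf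
    have hlt : ∀ a, (f a).val < 2 + 2 * m n := fun a => by
      obtain ⟨b, hb⟩ := hF a
      exact adj_lt (hf a b hb)
    have hex : ∃ a, (f a).val < 2 := by
      obtain ⟨a⟩ := ‹Nonempty α›
      obtain ⟨b, hb⟩ := hF a
      rcases adj_cover (hf a b hb) with h | h
      · exact ⟨a, h⟩
      · exact ⟨b, h⟩
    obtain ⟨a, ha⟩ := hex
    rw [mem_biUnion]
    refine ⟨(a, ⟨(f a).val, ha⟩), mem_univ _, ?_⟩
    rw [Fintype.mem_piFinset]
    intro b
    by_cases hb : b = a
    · subst hb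
      simp
    · rw [if_neg hb]
      simp [hlt b]
  refine (card_le_card hsub).trans (card_biUnion_le.trans ?_)
  have hbd : ∀ q ∈ (univ : Finset (α × Fin 2)), (Fintype.piFinset fun b =>
        if b = q.1 then univ.filter (fun v : Fin n => v.val = q.2.val)
          else univ.filter (fun v : Fin n => v.val < 2 + 2 * m n)).card ≤
        (2 + 2 * m n) ^ (Fintype.card α - 1) := by
    intro q _
    rw [Fintype.card_piFinset, ← mul_prod_erase univ _ (mem_univ q.1)]
    have h1 : (if q.1 = q.1 then univ.filter (fun v : Fin n => v.val = q.2.val)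
          else univ.filter (fun v : Fin n => v.val < 2 + 2 * m n)).card ≤ 1 := by
      rw [if_pos rfl, card_le_one]
      intro x hx y hy
      rw [mem_filter] at hx hy
      exact Fin.ext (hx.2.trans hy.2.symm)
    have h2 : ∏ b ∈ univ.erase q.1, (if b = q.1 then univ.filter (fun v : Fin n => v.val = q.2.val)
          else univ.filter (fun v : Fin n => v.val < 2 + 2 * m n)).card ≤
        (2 + 2 * m n) ^ (Fintype.card α - 1) := by
      rw [← card_univ, ← card_erase_of_mem (mem_univ q.1)]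
      apply prod_le_pow_card
      intro b hb
      rw [if_neg (ne_of_mem_erase hb)]
      calc (univ.filter (fun v : Fin n => v.val < 2 + 2 * m n)).card
          = ((univ.filter (fun v : Fin n => v.val < 2 + 2 * m n)).map Fin.valEmbedding).card :=
            (card_map _).symm
        _ ≤ (range (2 + 2 * m n)).card := by
            apply card_le_card
            intro x hx
            obtain ⟨v, hv, rfl⟩ := mem_map.1 hx
            exact mem_range.2 (mem_filter.1 hv).2
        _ = 2 + 2 * m n := card_range _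
    calc _ ≤ 1 * (2 + 2 * m n) ^ (Fintype.card α - 1) := Nat.mul_le_mul h1 h2
      _ = _ := one_mul _
  refine (sum_le_card_nsmul _ _ _ hbd).trans ?_
  rw [card_univ, Fintype.card_prod, Fintype.card_fin, smul_eq_mul]
  apply le_of_eq
  ring

theorem desc_ge {n t : ℕ} (ht : 1 ≤ t) (hn : t ≤ n) : n ^ t ≤ t ^ t * n.descFactorial t := by
  have h1 : (n + 1 - t) ^ t ≤ n.descFactorial t := Nat.pow_sub_le_descFactorial n t
  have h2 : n ≤ t * (n + 1 - t) := by
    obtain ⟨c, rfl⟩ := Nat.exists_eq_add_of_le hn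
    have : t + c + 1 - t = c + 1 := by omega
    rw [this]
    nlinarith
  calc n ^ t ≤ (t * (n + 1 - t)) ^ t := Nat.pow_le_pow_left h2 t
    _ = t ^ t * (n + 1 - t) ^ t := Nat.mul_pow _ _ _
    _ ≤ _ := Nat.mul_le_mul_left _ h1

/-- the normalised count of a graph with `t` vertices, no isolated vertex and `t - 1` edges is
bounded -/
theorem sp_le {α : Type} [Fintype α] [Nonempty α] (F : SimpleGraph α)
    (hF : ∀ a, ∃ b, F.Adj a b) (he : F.edgeSet.ncard + 1 = Fintype.card α) (n : ℕ) :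
    sp (pp n) F (G n) ≤ 2 * Fintype.card α * 4 ^ (Fintype.card α - 1) *
      (Fintype.card α : ℝ) ^ Fintype.card α := by
  set t := Fintype.card α with ht
  have htpos : 1 ≤ t := Fintype.card_pos
  have hRHS : (0 : ℝ) ≤ 2 * t * 4 ^ (t - 1) * (t : ℝ) ^ t := by positivity
  unfold sp
  rw [← ht]
  by_cases hn : t ≤ n
  swap
  · rw [Nat.descFactorial_eq_zero_iff_lt.2 (by omega)]
    simp only [Nat.cast_zero, zero_mul, div_zero]
    exact hRHS
  have hn1 : 1 ≤ n := by omega
  have hm := m_pos hn1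
  have hmR : (1 : ℝ) ≤ m n := by exact_mod_cast hm
  have hnR : (0 : ℝ) < n := by exact_mod_cast hn1
  have hdesc : (0 : ℝ) < (n.descFactorial t : ℕ) := by
    have : 0 < n.descFactorial t := Nat.descFactorial_pos.2 hn
    exact_mod_cast this
  rw [div_le_iff₀ (by have := pp_pos n; positivity), pp_eq hn1]
  have hedge : F.edgeSet.ncard = t - 1 := by omega
  rw [hedge, div_pow]
  have h1 : (emb F (G n) : ℝ) ≤ 2 * t * (2 + 2 * m n) ^ (t - 1) := by
    exact_mod_cast emb_le F hF n
  have h2 : ((2 : ℝ) + 2 * m n) ^ (t - 1) ≤ (4 * m n) ^ (t - 1) :=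
    pow_le_pow_left₀ (by positivity) (by linarith) _
  have h3 : ((n : ℝ)) ^ t ≤ (t : ℝ) ^ t * (n.descFactorial t : ℕ) := by
    exact_mod_cast desc_ge htpos hn
  have h4 : (n : ℝ) ^ t = n * (n : ℝ) ^ (t - 1) := by
    rw [← pow_succ']
    congr 1
    omega
  have h5 : (n : ℝ) ^ (t - 1) ≤ (t : ℝ) ^ t * (n.descFactorial t : ℕ) := by
    refine le_trans ?_ h3
    rw [h4]
    have : (1 : ℝ) ≤ n := by exact_mod_cast hn1
    have h6 : (0 : ℝ) ≤ (n : ℝ) ^ (t - 1) := by positivity
    nlinarith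
  have h7 : 1 ≤ (t : ℝ) ^ t * (n.descFactorial t : ℕ) / (n : ℝ) ^ (t - 1) := by
    rw [one_le_div (by positivity)]
    exact h5
  calc (emb F (G n) : ℝ) ≤ 2 * t * (4 * m n) ^ (t - 1) :=
        h1.trans (mul_le_mul_of_nonneg_left h2 (by positivity))
    _ = 2 * t * (4 * m n) ^ (t - 1) * 1 := by ring
    _ ≤ 2 * t * (4 * m n) ^ (t - 1) *
        ((t : ℝ) ^ t * (n.descFactorial t : ℕ) / (n : ℝ) ^ (t - 1)) :=
        mul_le_mul_of_nonneg_left h7 (by positivity)
    _ = _ := by
      rw [mul_pow]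
      ring

theorem condA : CondA pp G := by
  intro t T hT
  by_cases ht : t = 1
  · subst ht
    refine ⟨1, fun n => ?_⟩
    unfold sp
    have he : T.edgeSet = ∅ := by
      ext e
      induction e using Sym2.ind with
      | _ a b =>
        simp only [SimpleGraph.mem_edgeSet, Set.mem_empty_iff_false, iff_false]
        intro h
        exact h.ne (Subsingleton.elim a b)
    rw [he, Set.ncard_empty, pow_zero, mul_one, Fintype.card_fin, Nat.descFactorial_one]
    have h1 : emb T (G n) ≤ n := by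
      classical
      unfold emb
      rw [Nat.card_eq_fintype_card]
      calc Fintype.card {f : Fin 1 → Fin n // Function.Injective f ∧
            ∀ a b, T.Adj a b → (G n).Adj (f a) (f b)} ≤ Fintype.card (Fin 1 → Fin n) :=
            Fintype.card_subtype_le _
        _ = n := by simp
    by_cases hn : n = 0
    · subst hn
      simp
    · rw [div_le_one (by exact_mod_cast Nat.pos_of_ne_zero hn)]
      exact_mod_cast h1
  · have hne : Nonempty (Fin t) := hT.connected.nonempty
    have ht2 : 2 ≤ t := by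
      have := Fintype.card_pos (α := Fin t)
      rw [Fintype.card_fin] at this
      omega
    have hnt : Nontrivial (Fin t) := Fin.nontrivial_iff_two_le.2 ht2
    classical
    have hcard : T.edgeSet.ncard + 1 = Fintype.card (Fin t) := by
      have h1 := hT.card_edgeFinset
      rw [← h1, Set.ncard_eq_toFinset_card']
      rfl
    refine ⟨_, fun n => sp_le T (fun a => ?_) hcard n⟩
    exact (hT.connected.preconnected.exists_adj_of_nontrivial a)

/-! ## Condition (B) -/

open scoped Classical in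
theorem paths_two_le {n : ℕ} (u v : Fin n) :
    paths (G n) 2 u v ≤ (univ.filter fun w => (G n).Adj u w ∧ (G n).Adj w v).card := by
  classical
  unfold paths
  rw [← Fintype.card_subtype, ← Nat.card_eq_fintype_card]
  refine Nat.card_le_card_of_injective
    (fun x => ⟨x.1 1, ?_, ?_⟩) ?_
  · have h := x.2.2.2.2 0
    have h0 := x.2.2.1
    simp only [Fin.castSucc_zero, Fin.succ_zero_eq_one] at h
    rw [h0] at h
    exact h
  · have h := x.2.2.2.2 1
    have h0 : x.1 2 = v := x.2.2.2.1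
    have h1 : (1 : Fin 2).castSucc = (1 : Fin 3) := rfl
    have h2 : (1 : Fin 2).succ = (2 : Fin 3) := rfl
    rw [h1, h2, h0] at h
    exact h
  · rintro ⟨x, hx⟩ ⟨y, hy⟩ h
    simp only [Subtype.mk.injEq] at h
    apply Subtype.ext
    funext i
    have hx2 : x 2 = v := hx.2.2.1
    have hy2 : y 2 = v := hy.2.2.1
    fin_cases i
    · exact hx.2.1.trans hy.2.1.symm
    · exact h
    · exact hx2.trans hy2.symm

theorem card_lt_le (n N : ℕ) : (univ.filter fun w : Fin n => w.val < N).card ≤ N := by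
  calc (univ.filter fun w : Fin n => w.val < N).card
      = ((univ.filter fun w : Fin n => w.val < N).map Fin.valEmbedding).card := (card_map _).symm
    _ ≤ (range N).card := by
        apply card_le_card
        intro x hx
        obtain ⟨v, hv, rfl⟩ := mem_map.1 hx
        exact mem_range.2 (mem_filter.1 hv).2
    _ = N := card_range _

theorem adj_symm {n : ℕ} {i j : Fin n} (h : (G n).Adj i j) : (G n).Adj j i := h.symm

theorem paths_sq_le {n : ℕ} (u v : Fin n) : (paths (G n) 2 u v : ℝ) ^ 2 ≤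
    (if u.val < 2 then 1 else 0) * (if v.val < 2 + 2 * m n then 1 else 0) *
        (2 + 2 * (m n : ℝ)) ^ 2 +
      (if u.val < 2 + 2 * m n then 1 else 0) * (if v.val < 2 then 1 else 0) *
        (2 + 2 * (m n : ℝ)) ^ 2 +
      (if u.val < 2 + 2 * m n then 1 else 0) * (if v.val < 2 + 2 * m n then 1 else 0) * 4 := by
  classical
  have h1 := paths_two_le u v
  have hN : (0 : ℝ) ≤ (2 + 2 * (m n : ℝ)) ^ 2 := by positivity
  by_cases hu : u.val < 2 + 2 * m n
  swap
  · have h0 : paths (G n) 2 u v = 0 := by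
      apply Nat.eq_zero_of_le_zero
      refine h1.trans (le_of_eq ?_)
      rw [card_eq_zero, filter_eq_empty_iff]
      rintro w _ ⟨h2, _⟩
      exact hu (adj_lt h2)
    rw [h0]
    have hu2 : ¬ u.val < 2 := by omega
    simp [hu, hu2]
  by_cases hv : v.val < 2 + 2 * m n
  swap
  · have h0 : paths (G n) 2 u v = 0 := by
      apply Nat.eq_zero_of_le_zero
      refine h1.trans (le_of_eq ?_)
      rw [card_eq_zero, filter_eq_empty_iff]
      rintro w _ ⟨_, h2⟩
      exact hv (adj_lt (adj_symm h2))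
    rw [h0]
    have hv2 : ¬ v.val < 2 := by omega
    simp [hv, hv2]
  have hbig : (paths (G n) 2 u v : ℝ) ^ 2 ≤ (2 + 2 * (m n : ℝ)) ^ 2 := by
    apply pow_le_pow_left₀ (Nat.cast_nonneg _)
    have h2 : paths (G n) 2 u v ≤ 2 + 2 * m n := by
      refine h1.trans (le_trans (card_le_card ?_) (card_lt_le n (2 + 2 * m n)))
      intro w hw
      rw [mem_filter] at hw ⊢
      exact ⟨mem_univ _, adj_lt hw.2.2⟩
    exact_mod_cast h2
  rw [if_pos hu, if_pos hv]
  by_cases hu2 : u.val < 2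
  · rw [if_pos hu2]
    have : (0 : ℝ) ≤ if v.val < 2 then 1 else 0 := by split_ifs <;> norm_num
    nlinarith [mul_nonneg this hN]
  by_cases hv2 : v.val < 2
  · rw [if_neg hu2, if_pos hv2]
    linarith
  rw [if_neg hu2, if_neg hv2]
  have h2 : paths (G n) 2 u v ≤ 2 := by
    refine h1.trans (le_trans (card_le_card ?_) (card_lt_le n 2))
    intro w hw
    rw [mem_filter] at hw ⊢
    refine ⟨mem_univ _, ?_⟩
    rcases adj_cover hw.2.1 with h | h
    · exact absurd h hu2
    · exact h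
  have h3 : (paths (G n) 2 u v : ℝ) ≤ 2 := by exact_mod_cast h2
  have h4 : (0 : ℝ) ≤ paths (G n) 2 u v := Nat.cast_nonneg _
  nlinarith

theorem sum_ind_le (n N : ℕ) : ∑ u : Fin n, (if u.val < N then (1 : ℝ) else 0) ≤ N := by
  rw [← sum_filter, sum_const, nsmul_eq_mul, mul_one]
  exact_mod_cast card_lt_le n N

theorem sum_ind_nonneg (n N : ℕ) : 0 ≤ ∑ u : Fin n, (if u.val < N then (1 : ℝ) else 0) :=
  sum_nonneg fun u _ => by split_ifs <;> norm_num

theorem condB : CondB 3 pp G := by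
  refine ⟨512, eventually_atTop.2 ⟨1, fun n hn => ?_⟩⟩
  have hm : (1 : ℝ) ≤ m n := by exact_mod_cast m_pos hn
  have hnR : (0 : ℝ) < n := by exact_mod_cast hn
  have hR : (n : ℝ) ^ (2 * 3 - 2) * pp n ^ (2 * 3 - 2) = (m n : ℝ) ^ 4 := by
    rw [← mul_pow, pp_eq hn]
    congr 1
    field_simp
  beta_reduce
  rw [hR]
  have h1 : ∑ u : Fin n, ∑ v ∈ univ.erase u, (paths (G n) (3 - 1) u v : ℝ) ^ 2 ≤
      ∑ u : Fin n, ∑ v : Fin n,
        ((if u.val < 2 then (1 : ℝ) else 0) * (if v.val < 2 + 2 * m n then 1 else 0) *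
          (2 + 2 * (m n : ℝ)) ^ 2 +
        (if u.val < 2 + 2 * m n then 1 else 0) * (if v.val < 2 then 1 else 0) *
          (2 + 2 * (m n : ℝ)) ^ 2 +
        (if u.val < 2 + 2 * m n then 1 else 0) * (if v.val < 2 + 2 * m n then 1 else 0) *
          4) := by
    apply sum_le_sum
    intro u _
    calc _ ≤ ∑ v : Fin n, (paths (G n) (3 - 1) u v : ℝ) ^ 2 :=
          sum_le_sum_of_subset_of_nonneg (erase_subset _ _) fun v _ _ => by positivity
      _ ≤ _ := sum_le_sum fun v _ => paths_sq_le u v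
  refine h1.trans ?_
  simp only [sum_add_distrib, ← sum_mul, ← mul_sum]
  have ha := sum_ind_le n 2
  have hb := sum_ind_le n (2 + 2 * m n)
  have ha0 := sum_ind_nonneg n 2
  have hb0 := sum_ind_nonneg n (2 + 2 * m n)
  set a := ∑ u : Fin n, (if u.val < 2 then (1 : ℝ) else 0)
  set b := ∑ u : Fin n, (if u.val < 2 + 2 * m n then (1 : ℝ) else 0)
  have hb' : b ≤ 4 * (m n : ℝ) := by
    push_cast at hb
    linarith
  have ha' : a ≤ 2 := by exact_mod_cast ha
  have hsq : (2 + 2 * (m n : ℝ)) ^ 2 ≤ 16 * (m n : ℝ) ^ 2 := by nlinarith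
  have hab : a * b ≤ 8 * (m n : ℝ) := by nlinarith
  have hbb : b * b ≤ 16 * (m n : ℝ) ^ 2 := by nlinarith
  have hm2 : (0 : ℝ) ≤ (2 + 2 * (m n : ℝ)) ^ 2 := by positivity
  have hab0 : 0 ≤ a * b := mul_nonneg ha0 hb0
  have e1 : a * b * (2 + 2 * (m n : ℝ)) ^ 2 ≤ 8 * (m n : ℝ) * (16 * (m n : ℝ) ^ 2) :=
    mul_le_mul hab hsq hm2 (by positivity)
  have e2 : b * a * (2 + 2 * (m n : ℝ)) ^ 2 ≤ 8 * (m n : ℝ) * (16 * (m n : ℝ) ^ 2) := by
    rw [mul_comm b a]; exact e1
  have e3 : (m n : ℝ) ^ 3 ≤ (m n : ℝ) ^ 4 := pow_le_pow_right₀ hm (by norm_num)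
  have e4 : (m n : ℝ) ^ 2 ≤ (m n : ℝ) ^ 4 := pow_le_pow_right₀ hm (by norm_num)
  nlinarith

/-! ## The theta graphs -/

instance (k ℓ : ℕ) : DecidableRel (theta k ℓ).Adj := by
  unfold theta
  infer_instance

theorem theta_one_edges : (theta 1 3).edgeSet.ncard + 1 =
    Fintype.card (Fin 2 ⊕ (Fin 1 × Fin (3 - 1))) := by
  rw [Set.ncard_eq_toFinset_card']
  decide +kernel

theorem theta_one_adj : ∀ a, ∃ b, (theta 1 3).Adj a b := by
  decide +kernel

theorem theta_adj {k ℓ : ℕ} {a b : Fin 2 ⊕ (Fin k × Fin (ℓ - 1))} (h : thetaRel k ℓ a b = true)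
    (hab : a ≠ b) : (theta k ℓ).Adj a b := by
  unfold theta
  rw [SimpleGraph.fromRel_adj]
  exact ⟨hab, Or.inl h⟩

theorem theta_zero (k : ℕ) (hk : 2 ≤ k) (n : ℕ) : emb (theta k 3) (G n) = 0 := by
  unfold emb
  rw [Nat.card_eq_zero]
  left
  refine ⟨fun ⟨f, hinj, hf⟩ => ?_⟩
  let i0 : Fin k := ⟨0, by omega⟩
  let i1 : Fin k := ⟨1, by omega⟩
  let j0 : Fin (3 - 1) := ⟨0, by norm_num⟩
  let j1 : Fin (3 - 1) := ⟨1, by norm_num⟩
  have h1 : (theta k 3).Adj (Sum.inl 0) (Sum.inr (i0, j0)) :=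
    theta_adj (by simp [thetaRel, j0]) (by simp)
  have h2 : (theta k 3).Adj (Sum.inl 1) (Sum.inr (i0, j1)) :=
    theta_adj (by simp [thetaRel, j1]) (by simp)
  have h3 : (theta k 3).Adj (Sum.inr (i1, j0)) (Sum.inr (i1, j1)) :=
    theta_adj (by simp [thetaRel, j0, j1]) (by simp [j0, j1])
  have key : ∀ a b, a ≠ b → (f a).val ≠ (f b).val := fun a b hab e => hab (hinj (Fin.ext e))
  have g1 := adj_cover (hf _ _ h1)
  have g2 := adj_cover (hf _ _ h2)
  have g3 := adj_cover (hf _ _ h3)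
  have hi : i0 ≠ i1 := by simp [i0, i1]
  have k1 := key (Sum.inl 0) (Sum.inl 1) (by simp)
  have k2 := key (Sum.inl 0) (Sum.inr (i0, j1)) (by simp)
  have k3 := key (Sum.inl 0) (Sum.inr (i1, j0)) (by simp)
  have k4 := key (Sum.inl 0) (Sum.inr (i1, j1)) (by simp)
  have k5 := key (Sum.inr (i0, j0)) (Sum.inl 1) (by simp)
  have k6 := key (Sum.inr (i0, j0)) (Sum.inr (i0, j1)) (by simp [j0, j1])
  have k7 := key (Sum.inr (i0, j0)) (Sum.inr (i1, j0)) (by simp [hi])
  have k8 := key (Sum.inr (i0, j0)) (Sum.inr (i1, j1)) (by simp [hi])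
  have k9 := key (Sum.inl 1) (Sum.inr (i1, j0)) (by simp)
  have k10 := key (Sum.inl 1) (Sum.inr (i1, j1)) (by simp)
  have k11 := key (Sum.inr (i0, j1)) (Sum.inr (i1, j0)) (by simp [hi])
  have k12 := key (Sum.inr (i0, j1)) (Sum.inr (i1, j1)) (by simp [hi])
  omega

theorem theta_bounded (k : ℕ) (hk : 1 ≤ k) : ∃ B : ℝ, ∀ n, sp (pp n) (theta k 3) (G n) ≤ B := by
  rcases Nat.lt_or_ge k 2 with h | h
  · have : k = 1 := by omega
    subst this
    have hne : Nonempty (Fin 2 ⊕ (Fin 1 × Fin (3 - 1))) := ⟨Sum.inl 0⟩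
    exact ⟨_, fun n => sp_le (theta 1 3) theta_one_adj theta_one_edges n⟩
  · refine ⟨0, fun n => ?_⟩
    unfold sp
    rw [theta_zero k h n]
    simp

/-! ## Condition (D) fails -/

theorem paths_three_ge {K : ℕ} (hK : 2 ≤ K) (u v : Fin (K ^ 4)) (hu : 2 + K ≤ u.val)
    (hu' : u.val < 2 + 2 * K) (hv : v.val = 1) : K ≤ paths (G (K ^ 4)) 3 u v := by
  have hbig : 2 + 2 * K ≤ K ^ 4 := by
    calc 2 + 2 * K ≤ K * K + K * K := by nlinarith
      _ = 2 * (K * K) := by ring
      _ ≤ (K * K) * (K * K) := Nat.mul_le_mul_right _ (by nlinarith)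
      _ = K ^ 4 := by ring
  have hm := m_of_pow K
  unfold paths
  classical
  have hcard : K = Nat.card (Fin K) := by simp
  conv_lhs => rw [hcard]
  let z : Fin (K ^ 4) := ⟨0, by omega⟩
  let y : Fin K → Fin (K ^ 4) := fun j => ⟨2 + j.val, by omega⟩
  refine Nat.card_le_card_of_injective (fun j => ⟨![u, z, y j, v], ?_, rfl, rfl, ?_⟩) ?_
  · intro a b hab
    have hj := j.2
    have hval := congrArg Fin.val hab
    fin_cases a <;> fin_cases b <;>
      first
      | rfl
      | (exfalso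
         simp [z, y, hv] at hval <;> omega)
  · intro i
    fin_cases i
    · right
      left
      exact ⟨rfl, by change 2 ≤ u.val; omega, by
        change u.val < 2 + 2 * m (K ^ 4)
        rw [hm]; exact hu'⟩
    · left
      left
      exact ⟨rfl, by change 2 ≤ 2 + j.val; omega, by
        change 2 + j.val < 2 + 2 * m (K ^ 4)
        rw [hm]; omega⟩
    · right
      right
      exact ⟨hv, by change 2 ≤ 2 + j.val; omega, by
        change 2 + j.val < 2 + m (K ^ 4)
        rw [hm]; omega⟩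
  · intro j j' h
    have h1 := congrFun (congrArg Subtype.val h) 2
    have h2 : y j = y j' := h1
    have h3 : 2 + j.val = 2 + j'.val := congrArg Fin.val h2
    exact Fin.ext (by omega)

theorem not_condD : ¬ CondD 3 pp G := by
  intro h
  obtain ⟨B, hB⟩ := h 4 (by norm_num)
  obtain ⟨N, hN⟩ := eventually_atTop.1 hB
  obtain ⟨K, hK⟩ := exists_nat_gt (max B (max N 2))
  have hKB : B < K := (le_max_left _ _).trans_lt hK
  have hKN : (N : ℝ) < K := ((le_max_left _ _).trans (le_max_right _ _)).trans_lt hK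
  have hK2 : (2 : ℝ) < K := ((le_max_right _ _).trans (le_max_right _ _)).trans_lt hK
  have hKN' : N < K := by exact_mod_cast hKN
  have hK2' : 2 < K := by exact_mod_cast hK2
  have hbig : 2 + 2 * K ≤ K ^ 4 := by
    calc 2 + 2 * K ≤ K * K + K * K := by nlinarith
      _ = 2 * (K * K) := by ring
      _ ≤ (K * K) * (K * K) := Nat.mul_le_mul_right _ (by nlinarith)
      _ = K ^ 4 := by ring
  have hK4 : K ≤ K ^ 4 := Nat.le_self_pow (by norm_num) K
  have h1 := hN (K ^ 4) (by omega)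
  have hKR : (0 : ℝ) < K := by linarith
  -- the right-hand side
  have hR : (((K ^ 4 : ℕ) : ℝ)) ^ (2 + 4 * (3 - 1)) * pp (K ^ 4) ^ (4 * 3) = (K : ℝ) ^ 4 := by
    rw [pp_eq (by omega), m_of_pow]
    push_cast
    rw [div_pow]
    field_simp
  beta_reduce at h1
  rw [hR] at h1
  -- the left-hand side
  let v : Fin (K ^ 4) := ⟨1, by omega⟩
  let e : Fin K ↪ Fin (K ^ 4) := ⟨fun j => ⟨2 + K + j.val, by omega⟩, fun a b hab => by
    have := congrArg Fin.val hab
    simp only at this
    exact Fin.ext (by omega)⟩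
  have hL : (K : ℝ) * (K : ℝ) ^ 4 ≤
      ∑ u, ∑ v ∈ univ.erase u, (paths (G (K ^ 4)) 3 u v : ℝ) ^ 4 := by
    calc (K : ℝ) * (K : ℝ) ^ 4 = ∑ u ∈ (univ : Finset (Fin K)).map e, (K : ℝ) ^ 4 := by
          rw [sum_const, card_map, card_univ, Fintype.card_fin, nsmul_eq_mul]
      _ ≤ ∑ u ∈ (univ : Finset (Fin K)).map e,
          ∑ v ∈ univ.erase u, (paths (G (K ^ 4)) 3 u v : ℝ) ^ 4 := by
          apply sum_le_sum
          intro u hu
          obtain ⟨j, _, rfl⟩ := mem_map.1 hu
          have hval : (e j).val = 2 + K + j.val := rfl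
          have hj := j.2
          have hne : v ∈ univ.erase (e j) := mem_erase.2 ⟨fun h => by
            have := congrArg Fin.val h
            rw [hval] at this
            simp only [v] at this
            omega, mem_univ _⟩
          have hp : K ≤ paths (G (K ^ 4)) 3 (e j) v :=
            paths_three_ge (by omega) (e j) v (by rw [hval]; omega) (by rw [hval]; omega) rfl
          have hp' : (K : ℝ) ≤ paths (G (K ^ 4)) 3 (e j) v := by exact_mod_cast hp
          calc (K : ℝ) ^ 4 ≤ (paths (G (K ^ 4)) 3 (e j) v : ℝ) ^ 4 :=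
                pow_le_pow_left₀ hKR.le hp' 4
            _ ≤ _ := single_le_sum (f := fun v => (paths (G (K ^ 4)) 3 (e j) v : ℝ) ^ 4)
                (fun v _ => by positivity) hne
      _ ≤ _ := sum_le_sum_of_subset_of_nonneg (subset_univ _) fun u _ _ =>
          sum_nonneg fun v _ => by positivity
  have h2 := hL.trans h1
  have h3 : (0 : ℝ) < (K : ℝ) ^ 4 := by positivity
  have h4 : (K : ℝ) ≤ B := le_of_mul_le_mul_right h2 h3
  linarith

/-! ## Condition (C) -/

/-- the `i`-th interval -/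
def cell (n : ℕ) (i : ℕ) : Set I := {x | ⌈(n : ℝ) * x⌉₊ = i + 1}

theorem cell_meas (n i : ℕ) : MeasurableSet (cell n i) := by
  have h : Measurable fun x : I => ⌈(n : ℝ) * (x : ℝ)⌉₊ :=
    Nat.measurable_ceil.comp (measurable_subtype_coe.const_mul _)
  exact h (measurableSet_singleton (i + 1))

theorem cell_vol {n : ℕ} (hn : 1 ≤ n) (i : ℕ) :
    volume (cell n i) ≤ ENNReal.ofReal (1 / n) := by
  have hnR : (0 : ℝ) < n := by exact_mod_cast hn
  rw [unitInterval.volume_apply]
  have hsub : Subtype.val '' cell n i ⊆ Set.Ioc ((i : ℝ) / n) ((i + 1) / n) := by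
    rintro _ ⟨x, hx, rfl⟩
    have hx' : ⌈(n : ℝ) * x⌉₊ = i + 1 := hx
    rw [Nat.ceil_eq_iff (by omega)] at hx'
    obtain ⟨h1, h2⟩ := hx'
    constructor
    · rw [div_lt_iff₀ hnR, mul_comm]
      simpa using h1
    · rw [le_div_iff₀ hnR, mul_comm]
      simpa using h2
  refine (measure_mono hsub).trans ?_
  rw [Real.volume_Ioc]
  apply ENNReal.ofReal_le_ofReal
  apply le_of_eq
  field_simp
  ring

/-- the support of the step function -/
def supp {n : ℕ} (G : SimpleGraph (Fin n)) : Set (I × I) :=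
  {z | ∃ i j : Fin n, ⌈(n : ℝ) * z.1⌉₊ = i.val + 1 ∧ ⌈(n : ℝ) * z.2⌉₊ = j.val + 1 ∧ G.Adj i j}

open scoped Classical in
theorem supp_eq {n : ℕ} (G : SimpleGraph (Fin n)) :
    supp G = ⋃ q ∈ (univ : Finset (Fin n × Fin n)).filter (fun q => G.Adj q.1 q.2),
      cell n q.1 ×ˢ cell n q.2 := by
  ext z
  simp only [supp, Set.mem_ofPred_eq, Set.mem_iUnion, mem_filter, mem_univ, true_and,
    Set.mem_prod, exists_prop, Prod.exists]
  constructor
  · rintro ⟨i, j, h1, h2, h3⟩
    exact ⟨i, j, h3, h1, h2⟩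
  · rintro ⟨i, j, h3, h1, h2⟩
    exact ⟨i, j, h1, h2, h3⟩

theorem supp_meas {n : ℕ} (G : SimpleGraph (Fin n)) : MeasurableSet (supp G) := by
  classical
  rw [supp_eq]
  exact Finset.measurableSet_biUnion _ fun q _ => (cell_meas n _).prod (cell_meas n _)

open scoped Classical in
theorem pairs_card (n : ℕ) : ((univ : Finset (Fin n × Fin n)).filter
    (fun q => (G n).Adj q.1 q.2)).card ≤ 4 * (2 + 2 * m n) := by
  have hsub : (univ : Finset (Fin n × Fin n)).filter (fun q => (G n).Adj q.1 q.2) ⊆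
      (univ.filter (fun w : Fin n => w.val < 2)) ×ˢ
        (univ.filter (fun w : Fin n => w.val < 2 + 2 * m n)) ∪
      (univ.filter (fun w : Fin n => w.val < 2 + 2 * m n)) ×ˢ
        (univ.filter (fun w : Fin n => w.val < 2)) := by
    rintro ⟨i, j⟩ h
    rw [mem_filter] at h
    have h1 := adj_lt h.2
    have h2 := adj_lt (adj_symm h.2)
    rw [mem_union, mem_product, mem_product, mem_filter, mem_filter, mem_filter, mem_filter]
    rcases adj_cover h.2 with h3 | h3
    · exact Or.inl ⟨⟨mem_univ _, h3⟩, ⟨mem_univ _, h2⟩⟩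
    · exact Or.inr ⟨⟨mem_univ _, h1⟩, ⟨mem_univ _, h3⟩⟩
  refine (card_le_card hsub).trans ((card_union_le _ _).trans ?_)
  rw [card_product, card_product]
  have ha := card_lt_le n 2
  have hb := card_lt_le n (2 + 2 * m n)
  have h1 := Nat.mul_le_mul ha hb
  have h2 := Nat.mul_le_mul hb ha
  omega

theorem supp_vol {n : ℕ} (hn : 1 ≤ n) :
    (volume (supp (G n))).toReal ≤ 4 * (2 + 2 * m n) * (1 / n) ^ 2 := by
  classical
  have hnR : (0 : ℝ) < n := by exact_mod_cast hn
  have h1 : volume (supp (G n)) ≤ ENNReal.ofReal (4 * (2 + 2 * m n) * (1 / n) ^ 2) := by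
    rw [supp_eq]
    refine (measure_biUnion_finset_le _ _).trans ?_
    have h2 : ∀ q ∈ (univ : Finset (Fin n × Fin n)).filter (fun q => (G n).Adj q.1 q.2),
        volume (cell n q.1 ×ˢ cell n q.2) ≤ ENNReal.ofReal ((1 / n) ^ 2) := by
      intro q _
      rw [Measure.volume_eq_prod, Measure.prod_prod, sq, ENNReal.ofReal_mul (by positivity)]
      exact mul_le_mul' (cell_vol hn _) (cell_vol hn _)
    refine (sum_le_card_nsmul _ _ _ h2).trans ?_
    rw [nsmul_eq_mul, ← ENNReal.ofReal_natCast, ← ENNReal.ofReal_mul (by positivity)]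
    apply ENNReal.ofReal_le_ofReal
    apply mul_le_mul_of_nonneg_right _ (by positivity)
    exact_mod_cast pairs_card n
  exact ENNReal.toReal_le_of_le_ofReal (by positivity) h1

theorem stepFun_eq (p : ℝ) {n : ℕ} (G : SimpleGraph (Fin n)) (z : I × I) :
    stepFun p G z.1 z.2 = (supp G).indicator (fun _ => 1 / p) z := by
  by_cases h : z ∈ supp G
  · rw [Set.indicator_of_mem h]
    exact if_pos h
  · rw [Set.indicator_of_notMem h]
    exact if_neg h

theorem cutNorm_nonneg (W : I → I → ℝ) : 0 ≤ cutNorm W :=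
  Real.sSup_nonneg fun r ⟨_, _, _, _, h⟩ => by rw [h]; exact abs_nonneg _

theorem dCut_nonneg (p : ℝ) {n : ℕ} (G : SimpleGraph (Fin n)) (κ : I → I → ℝ) :
    0 ≤ dCut p G κ :=
  Real.sInf_nonneg fun r ⟨_, _, h⟩ => by rw [h]; exact cutNorm_nonneg _

theorem dCut_le {n : ℕ} (hn : 1 ≤ n) : dCut (pp n) (G n) (fun _ _ => 0) ≤ 16 / n := by
  have hnR : (0 : ℝ) < n := by exact_mod_cast hn
  have hm : (1 : ℝ) ≤ m n := by exact_mod_cast m_pos hn
  have h1 : dCut (pp n) (G n) (fun _ _ => 0) ≤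
      cutNorm fun x y => stepFun (pp n) (G n) x y - 0 := by
    apply csInf_le
    · exact ⟨0, fun r ⟨_, _, h⟩ => by rw [h]; exact cutNorm_nonneg _⟩
    · exact ⟨MeasurableEquiv.refl I, MeasurePreserving.id _, rfl⟩
  refine h1.trans ?_
  apply Real.sSup_le
  · rintro r ⟨S, T, hS, hT, rfl⟩
    have h2 : ∫ z in S ×ˢ T, (stepFun (pp n) (G n) z.1 z.2 - 0) =
        ∫ z in S ×ˢ T, (supp (G n)).indicator (fun _ => 1 / pp n) z := by
      congr 1
      funext z
      rw [sub_zero, stepFun_eq]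
    rw [h2, integral_indicator_const _ (supp_meas _), smul_eq_mul, abs_of_nonneg
      (mul_nonneg measureReal_nonneg (by have := pp_pos n; positivity))]
    have h3 : (volume.restrict (S ×ˢ T)).real (supp (G n)) ≤ 4 * (2 + 2 * m n) * (1 / n) ^ 2 := by
      refine le_trans ?_ (supp_vol hn)
      rw [Measure.real]
      apply ENNReal.toReal_mono (measure_ne_top _ _)
      exact Measure.restrict_apply_le _ _
    have h4 : 1 / pp n = n / m n := by
      rw [pp_eq hn, one_div_div]
    rw [h4]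
    have h5 : (0 : ℝ) ≤ n / m n := by positivity
    refine (mul_le_mul_of_nonneg_right h3 h5).trans ?_
    have h6 : 4 * (2 + 2 * (m n : ℝ)) * (1 / n) ^ 2 * (n / m n) =
        (4 * (2 + 2 * (m n : ℝ)) / m n) / n := by
      field_simp
    rw [h6]
    apply div_le_div_of_nonneg_right _ hnR.le
    rw [div_le_iff₀ (by linarith)]
    linarith
  · positivity

theorem condC (C : ℝ) (hC : 0 < C) : CondC C pp G := by
  refine ⟨fun _ _ => 0, measurable_const, fun _ _ => rfl, fun _ _ => ⟨le_rfl, hC.le⟩, ?_⟩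
  refine squeeze_zero' (Eventually.of_forall fun n => dCut_nonneg _ _ _)
    (eventually_atTop.2 ⟨1, fun n hn => dCut_le hn⟩) ?_
  exact tendsto_const_div_atTop_nhds_zero_nat 16

/-- There are a function `p = p(n)` with values in `(0, 1]` and a sequence of graphs `G_n` on `n`
vertices which satisfies (A), (B) and (C) for `ℓ = 3` and every `C > 0`, and for which
`s_p(H_{k,3}, G_n)` is bounded for every `k ≥ 1`, but which does not satisfy (D). -/
theorem result : ∃ (p : ℕ → ℝ) (G : (n : ℕ) → SimpleGraph (Fin n)),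
    (∀ n, 0 < p n ∧ p n ≤ 1) ∧ CondA p G ∧ CondB 3 p G ∧ (∀ C : ℝ, 0 < C → CondC C p G) ∧
    (∀ k : ℕ, 1 ≤ k → ∃ B : ℝ, ∀ n, sp (p n) (theta k 3) (G n) ≤ B) ∧ ¬ CondD 3 p G :=
  ⟨pp, G, fun n => ⟨pp_pos n, pp_le_one n⟩, condA, condB, condC, theta_bounded, not_condD⟩

end Pool.Agent.Results.MP_cf0832_co.PathMomentsNotFromThetas
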